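import Pool.Agent.N646.RG.Clq

/-! Project TP: cliques in dense subsets of unions of arbitrarily many windows (forms `± n + c`). -/

set_option autoImplicit false

namespace Pool.Agent.N646.TP

open Finset Filter Topology
open Pool.Agent.N646.RO (S_WC HitM badU min_pos')
open Pool.Agent.N646.RG

open Classical in
/-- **cliques in dense subsets of unions of windows** -/
theorem core (hWC : S_WC) (k : ℕ) (hH : S_HITM2 k) (ε : ℝ) (hε : 0 < ε) : ∃ M₀ : ℕ, 1 ≤ M₀ ∧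
    ∀ η lam : ℝ, 0 < η → 0 < lam → ∃ κ : ℝ, 0 < κ ∧ ∀ᶠ N : ℕ in atTop, ∀ T₁ : ℕ,
      lam * Real.log N ≤ T₁ → 2 * (M₀ * T₁) ≤ N → ∀ U : Finset (ℤ × ℤ),
      (∀ f ∈ U, ∀ t ≤ T₁, Afm N (sh f (M₀ * t))) →
      (∀ p : ℕ, p.Prime → p ∣ M₀ → ∃ r : ℤ, ∀ f ∈ U, ¬ (p : ℤ) ∣ f.1 * r + f.2) →
      ∀ V : Finset ((ℤ × ℤ) × ℕ), V ⊆ U ×ˢ range T₁ → V.Nonempty → η * (U.card * T₁) ≤ V.card →
      ∃ A ⊆ V, (5 / 18 - ε) * (V.card : ℝ) ≤ A.card ∧
        (((Fintype.piFinset (fun _ : Fin (k + 1) => A)).filter (fun y =>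
          Function.Injective y ∧ ¬ Gdf κ N (fun i => sh (y i).1 (M₀ * (y i).2)))).card : ℝ) ≤
          ε * (V.card : ℝ) ^ (k + 1) := by
  have hex : ∀ T : ℕ, ∃ M' K : ℕ, 1 ≤ T → (T : ℝ) ≤ (18 / 5) * ((M' + 1 : ℕ) : ℝ) ∧ 1 ≤ K ∧
    ∀ M₀ : ℕ, 1 ≤ M₀ → ∀ lam δ' : ℝ, 0 < lam → 0 < δ' →
      ∃ κ : ℝ, 0 < κ ∧ ∀ᶠ N : ℕ in atTop, ∀ T₁ : ℕ, lam * Real.log N ≤ T₁ → 2 * (M₀ * T₁) ≤ N →
      ∀ f : Fin T × Fin K → ℤ × ℤ, (∀ x, ∀ t ≤ T₁, Afm N (sh (f x) (M₀ * t))) →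
      (∀ p : ℕ, p.Prime → p ≤ T * K → p ∣ M₀ ∧ ∃ r : ℤ, ∀ x, ¬ (p : ℤ) ∣ (f x).1 * r + (f x).2) →
      (((Fintype.piFinset (fun _ : Fin T × Fin K => range T₁)).filter (fun H =>
        ¬ ∃ (S : Finset (Fin T)) (σ : Fin T → Fin K), M' + 1 ≤ S.card ∧
          ∀ g : Fin (k + 1) → Fin T, Function.Injective g → (∀ i, g i ∈ S) →
            Gdf κ N (fun i => sh (f (g i, σ (g i))) (M₀ * H (g i, σ (g i)))))).card : ℝ) ≤
        δ' * (T₁ : ℝ) ^ (T * K) := by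
    intro T
    by_cases hT : 1 ≤ T
    · obtain ⟨M', h1, h2⟩ := Pool.Agent.Y827.RO.ceilM T hT
      obtain ⟨K, hK, h3⟩ := hH T M' hT h1
      exact ⟨M', K, fun _ => ⟨h2, hK, h3⟩⟩
    · exact ⟨0, 0, fun h => absurd h hT⟩
  choose Mf Kf hf using hex
  obtain ⟨M, n₀, δ', hδ', hWC'⟩ := hWC (18 / 5) (by norm_num) k ε hε Kf
  obtain ⟨M₀, hM₀1, hdvd⟩ : ∃ M₀ : ℕ, 1 ≤ M₀ ∧
      ∀ T', T' ≤ M → ∀ p : ℕ, p.Prime → p ≤ T' * Kf T' → p ∣ M₀ := by
    refine ⟨(∑ T' ∈ range (M + 1), T' * Kf T').factorial, Nat.factorial_pos _, ?_⟩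
    intro T' hT' p hp hpT
    apply Nat.dvd_factorial hp.pos (hpT.trans _)
    exact Finset.single_le_sum (f := fun T' => T' * Kf T') (fun _ _ => Nat.zero_le _)
      (mem_range.2 (by omega : T' < M + 1))
  refine ⟨M₀, hM₀1, fun η lam hη hlam => ?_⟩
  -- the constants
  obtain ⟨E, hE⟩ : ∃ E : ℕ, ∀ T' ≤ M, T' * Kf T' ≤ E :=
    ⟨∑ T' ∈ range (M + 1), T' * Kf T', fun T' hT' =>
      Finset.single_le_sum (f := fun T' => T' * Kf T') (fun _ _ => Nat.zero_le _)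
        (mem_range.2 (by omega : T' < M + 1))⟩
  set η₁ : ℝ := min η 1 with hη₁
  have hη₁0 : 0 < η₁ := lt_min hη one_pos
  have hη₁1 : η₁ ≤ 1 := min_le_right _ _
  have hη₁η : η₁ ≤ η := min_le_left _ _
  set δ₂ : ℝ := δ' * η₁ ^ E with hδ₂
  have hδ₂0 : 0 < δ₂ := by positivity
  have hκex : ∀ T' : ℕ, ∃ κ : ℝ, 0 < κ ∧ (1 ≤ T' → T' ≤ M → ∀ᶠ N : ℕ in atTop, ∀ T₁ : ℕ,
      lam * Real.log N ≤ T₁ → 2 * (M₀ * T₁) ≤ N →
      ∀ f : Fin T' × Fin (Kf T') → ℤ × ℤ, (∀ x, ∀ t ≤ T₁, Afm N (sh (f x) (M₀ * t))) →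
      (∀ p : ℕ, p.Prime → p ≤ T' * (Kf T') → p ∣ M₀ ∧
        ∃ r : ℤ, ∀ x, ¬ (p : ℤ) ∣ (f x).1 * r + (f x).2) →
      (((Fintype.piFinset (fun _ : Fin T' × Fin (Kf T') => range T₁)).filter (fun H =>
        ¬ ∃ (S : Finset (Fin T')) (σ : Fin T' → Fin (Kf T')), Mf T' + 1 ≤ S.card ∧
          ∀ g : Fin (k + 1) → Fin T', Function.Injective g → (∀ i, g i ∈ S) →
            Gdf κ N (fun i => sh (f (g i, σ (g i))) (M₀ * H (g i, σ (g i)))))).card : ℝ) ≤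
        δ₂ * (T₁ : ℝ) ^ (T' * Kf T')) := by
    intro T'
    by_cases h : 1 ≤ T' ∧ T' ≤ M
    · obtain ⟨h1, h2⟩ := h
      obtain ⟨_, _, h3⟩ := hf T' h1
      obtain ⟨κ, hκ, h4⟩ := h3 M₀ hM₀1 lam δ₂ hlam hδ₂0
      exact ⟨κ, hκ, fun _ _ => h4⟩
    · exact ⟨1, one_pos, fun h1 h2 => absurd ⟨h1, h2⟩ h⟩
  choose κf hκf hκf' using hκex
  obtain ⟨κ, hκ, hκle⟩ := min_pos' κf hκf M
  refine ⟨κ, hκ, ?_⟩
  have hev : ∀ᶠ N : ℕ in atTop, ∀ T' ∈ Icc 1 M, ∀ T₁ : ℕ,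
      lam * Real.log N ≤ T₁ → 2 * (M₀ * T₁) ≤ N →
      ∀ f : Fin T' × Fin (Kf T') → ℤ × ℤ, (∀ x, ∀ t ≤ T₁, Afm N (sh (f x) (M₀ * t))) →
      (∀ p : ℕ, p.Prime → p ≤ T' * (Kf T') → p ∣ M₀ ∧
        ∃ r : ℤ, ∀ x, ¬ (p : ℤ) ∣ (f x).1 * r + (f x).2) →
      (((Fintype.piFinset (fun _ : Fin T' × Fin (Kf T') => range T₁)).filter (fun H =>
        ¬ ∃ (S : Finset (Fin T')) (σ : Fin T' → Fin (Kf T')), Mf T' + 1 ≤ S.card ∧
          ∀ g : Fin (k + 1) → Fin T', Function.Injective g → (∀ i, g i ∈ S) →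
            Gdf (κf T') N (fun i => sh (f (g i, σ (g i))) (M₀ * H (g i, σ (g i)))))).card : ℝ) ≤
        δ₂ * (T₁ : ℝ) ^ (T' * Kf T') := by
    rw [Filter.eventually_all_finset]
    intro T' hT'
    obtain ⟨h1, h2⟩ := mem_Icc.1 hT'
    exact hκf' T' h1 h2
  have hlog : Tendsto (fun N : ℕ => lam * Real.log (N : ℝ)) atTop atTop :=
    (Real.tendsto_log_atTop.comp tendsto_natCast_atTop_atTop).const_mul_atTop hlam
  filter_upwards [hev, hlog.eventually_ge_atTop ((n₀ : ℝ) / η₁ + 1)]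
    with N hx hxn T₁ hT₁ hT₁x U hUA hUp V hVU hVne hVη
  have hT0 : (0 : ℝ) < T₁ := by
    have : (0 : ℝ) ≤ (n₀ : ℝ) / η₁ := by positivity
    linarith
  have hU1 : 1 ≤ U.card := by
    obtain ⟨v, hv⟩ := hVne
    exact Finset.card_pos.2 ⟨_, (mem_product.1 (hVU hv)).1⟩
  have hU1R : (1 : ℝ) ≤ U.card := by exact_mod_cast hU1
  have hVη₁ : η₁ * (U.card * T₁) ≤ V.card :=
    (mul_le_mul_of_nonneg_right hη₁η (by positivity)).trans hVη
  have hn0V : n₀ ≤ V.card := by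
    have h1 : (n₀ : ℝ) ≤ V.card := by
      refine le_trans ?_ hVη₁
      have h2 : (n₀ : ℝ) / η₁ ≤ T₁ := by linarith
      rw [div_le_iff₀ hη₁0] at h2
      nlinarith
    exact_mod_cast h1
  set fm : (ℤ × ℤ) × ℕ → ℤ × ℤ := fun v => sh v.1 (M₀ * v.2) with hfm
  set G : Finset ((ℤ × ℤ) × ℕ) → Prop := fun F' => ∀ v : Fin (k + 1) → (ℤ × ℤ) × ℕ,
    Function.Injective v → (∀ i, v i ∈ F') → Gdf κ N (fun i => fm (v i)) with hG
  have hGh : ∀ F F' : Finset ((ℤ × ℤ) × ℕ), F' ⊆ F → G F → G F' := fun F F' hF hGF v hv hw =>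
    hGF v hv (fun i => hF (hw i))
  have hHit : HitM (18 / 5) Kf M δ' V G := by
    refine hitM_of fun T' h1 h2 => ?_
    -- the configurations of a given type
    have hτ : ∀ τ ∈ Fintype.piFinset (fun _ : Fin T' × Fin (Kf T') => U),
        (((Fintype.piFinset (fun _ : Fin T' × Fin (Kf T') => V)).filter (fun H =>
          (∀ x, (H x).1 = τ x) ∧ ¬ ∃ (S : Finset (Fin T')) (c : Fin T' → Fin (Kf T')),
            (T' : ℝ) ≤ (18 / 5) * (S.card : ℝ) ∧ G (S.image (fun g => H (g, c g))))).card : ℝ) ≤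
          δ₂ * (T₁ : ℝ) ^ (T' * Kf T') := by
      intro τ hτU
      rw [Fintype.mem_piFinset] at hτU
      refine le_trans ?_ (hx T' (mem_Icc.2 ⟨h1, h2⟩) T₁ hT₁ hT₁x τ
        (fun x t ht => hUA (τ x) (hτU x) t ht) (fun p hp hpT => ?_))
      · rw [Nat.cast_le]
        apply card_le_card_of_injOn (fun H x => (H x).2)
        · intro H hH'
          rw [mem_coe, mem_filter, Fintype.mem_piFinset] at hH'
          rw [mem_coe, mem_filter, Fintype.mem_piFinset]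
          refine ⟨fun x => ?_, ?_⟩
          · exact (mem_product.1 (hVU (hH'.1 x))).2
          rintro ⟨S, σ, hS, hF⟩
          apply hH'.2.2
          refine ⟨S, σ, ?_, ?_⟩
          · have h3 := (hf T' h1).1
            have h4 : ((Mf T' + 1 : ℕ) : ℝ) ≤ (S.card : ℝ) := by exact_mod_cast hS
            calc (T' : ℝ) ≤ (18 / 5) * ((Mf T' + 1 : ℕ) : ℝ) := h3
              _ ≤ 18 / 5 * (S.card : ℝ) := mul_le_mul_of_nonneg_left h4 (by norm_num)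
          · intro v hv hvS
            choose g hg hgv using fun i => mem_image.1 (hvS i)
            have hgi : Function.Injective g := by
              intro i j hij
              apply hv
              rw [← hgv i, ← hgv j, hij]
            have h5 := hF g hgi hg
            apply Gdf_mono (hκle T' h2)
            have e0 : (fun i => fm (v i)) =
                (fun i : Fin (k + 1) => sh (τ (g i, σ (g i)))
                  (M₀ * (H (g i, σ (g i))).2)) := by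
              funext i
              rw [← hgv i]
              show sh (H (g i, σ (g i))).1 _ = sh (τ (g i, σ (g i))) _
              rw [hH'.2.1]
            rw [e0]
            exact h5
        · intro H hH1 H' hH2 hHH
          rw [mem_coe, mem_filter] at hH1 hH2
          funext x
          exact Prod.ext ((hH1.2.1 x).trans (hH2.2.1 x).symm) (congrFun hHH x)
      · refine ⟨hdvd T' h2 p hp hpT, ?_⟩
        obtain ⟨r, hr⟩ := hUp p hp (hdvd T' h2 p hp hpT)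
        exact ⟨r, fun x => hr (τ x) (hτU x)⟩
    set Bs : (Fin T' × Fin (Kf T') → ℤ × ℤ) → Finset (Fin T' × Fin (Kf T') → (ℤ × ℤ) × ℕ) := fun τ =>
          (Fintype.piFinset (fun _ : Fin T' × Fin (Kf T') => V)).filter (fun H =>
          (∀ x, (H x).1 = τ x) ∧ ¬ ∃ (S : Finset (Fin T')) (c : Fin T' → Fin (Kf T')),
            (T' : ℝ) ≤ (18 / 5) * (S.card : ℝ) ∧ G (S.image (fun g => H (g, c g)))) with hBs
    have hc : (((Fintype.piFinset (fun _ : Fin T' × Fin (Kf T') => U)).biUnion Bs).card : ℝ) ≤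
        δ' * (V.card : ℝ) ^ (T' * Kf T') := by
      have h4 : (((Fintype.piFinset (fun _ : Fin T' × Fin (Kf T') => U)).biUnion Bs).card : ℝ) ≤
        ∑ τ ∈ Fintype.piFinset (fun _ : Fin T' × Fin (Kf T') => U), ((Bs τ).card : ℝ) := by
        exact_mod_cast card_biUnion_le
      refine h4.trans ((sum_le_sum fun τ hτ' => hτ τ hτ').trans ?_)
      rw [sum_const, nsmul_eq_mul, Fintype.card_piFinset, prod_const, card_univ, Fintype.card_prod,
        Fintype.card_fin, Fintype.card_fin]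
      push_cast
      have h5 : η₁ ^ E ≤ η₁ ^ (T' * Kf T') := pow_le_pow_of_le_one hη₁0.le hη₁1 (hE T' h2)
      calc (U.card : ℝ) ^ (T' * Kf T') * (δ₂ * (T₁ : ℝ) ^ (T' * Kf T'))
          = δ' * (η₁ ^ E * (U.card * T₁) ^ (T' * Kf T')) := by rw [hδ₂, mul_pow]; ring
        _ ≤ δ' * (η₁ ^ (T' * Kf T') * (U.card * T₁) ^ (T' * Kf T')) :=
            mul_le_mul_of_nonneg_left (mul_le_mul_of_nonneg_right h5 (by positivity)) hδ'.le
        _ = δ' * (η₁ * (U.card * T₁)) ^ (T' * Kf T') := by rw [← mul_pow]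
        _ ≤ δ' * (V.card : ℝ) ^ (T' * Kf T') :=
            mul_le_mul_of_nonneg_left (pow_le_pow_left₀ (by positivity) hVη₁ _) hδ'.le
    refine ⟨_, hc, fun H hH1 hH2 => ?_⟩
    rw [mem_biUnion]
    refine ⟨fun x => (H x).1, ?_, ?_⟩
    · rw [Fintype.mem_piFinset]
      exact fun x => (mem_product.1 (hVU (hH1 x))).1
    rw [hBs]
    exact mem_filter.2 ⟨Fintype.mem_piFinset.2 hH1, fun _ => rfl, hH2⟩
  obtain ⟨A, hA1, hA2, hA3⟩ := hWC' ((ℤ × ℤ) × ℕ) V G hn0V hGh hHit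
  refine ⟨A, hA1, ?_, ?_⟩
  · refine le_trans (le_of_eq ?_) hA2
    norm_num
  · refine le_trans ?_ hA3
    rw [Nat.cast_le]
    apply card_le_card
    intro y hy
    rw [mem_filter, Fintype.mem_piFinset] at hy
    exact mem_badU k A G y hy.1 hy.2.1 (fun hGG => hy.2.2 (hGG y hy.2.1
      (fun i => mem_image.2 ⟨i, mem_univ _, rfl⟩)))

end Pool.Agent.N646.TP
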