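import Pool.Agent.N646.TP.Nat
import Pool.Agent.N646.RG.All

/-! Project TP: the decomposition of log-thick sets of shifts. -/

set_option autoImplicit false

namespace Pool.Agent.N646.TP

open Finset Filter Topology
open Pool.Agent.N646.RO (S_WC HitM badU min_pos')
open Pool.Agent.N646.RG

/-- the base form and the position of `v` -/
def phi (M T : ℕ) (v : ℕ) : (ℤ × ℤ) × ℕ :=
  (((1 : ℤ), ((v % M + M * (v / M / T * T) : ℕ) : ℤ)), v / M % T)

theorem phi_nat (M T v : ℕ) : v % M + M * (v / M / T * T) + M * (v / M % T) = v := by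
  have h1 := Nat.div_add_mod v M
  have h2 := Nat.div_add_mod (v / M) T
  calc v % M + M * (v / M / T * T) + M * (v / M % T)
      = M * (T * (v / M / T) + v / M % T) + v % M := by ring
    _ = v := by rw [h2, h1]

theorem sh_phi (M T v : ℕ) : sh (phi M T v).1 (M * (phi M T v).2) = (1, (v : ℤ)) := by
  unfold sh phi
  refine Prod.ext rfl ?_
  show ((v % M + M * (v / M / T * T) : ℕ) : ℤ) + ((M * (v / M % T) : ℕ) : ℤ) = v
  exact_mod_cast phi_nat M T v

theorem phi_inj (M T : ℕ) : Function.Injective (phi M T) := by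
  intro v w h
  have h1 := sh_phi M T v
  have h2 := sh_phi M T w
  rw [h, h2] at h1
  have h3 : (w : ℤ) = (v : ℤ) := congrArg Prod.snd h1
  exact_mod_cast h3.symm

theorem div_uniq {u u' t t' T : ℕ} (ht : t < T) (ht' : t' < T) (h : u * T + t = u' * T + t') :
    u = u' ∧ t = t' := by
  have hT : 0 < T := lt_of_le_of_lt (Nat.zero_le _) ht
  have h1 : (u * T + t) / T = u := by
    rw [Nat.mul_comm, Nat.mul_add_div hT, Nat.div_eq_of_lt ht, Nat.add_zero]
  have h2 : (u' * T + t') / T = u' := by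
    rw [Nat.mul_comm, Nat.mul_add_div hT, Nat.div_eq_of_lt ht', Nat.add_zero]
  have h3 : u = u' := by rw [← h1, ← h2, h]
  subst h3
  exact ⟨rfl, by omega⟩

theorem gdf_conv {k : ℕ} {κ : ℝ} (hκ : 0 < κ) {x N : ℕ} (hN : N = x + x / 2) (hx : 100 ≤ x)
    (y : Fin (k + 1) → ℕ) (h : Gdf κ N (fun i => ((1 : ℤ), (y i : ℤ)))) :
    κ / 2 ^ (k + 1) * x / Real.log x ^ (k + 1) ≤
      ({n : ℕ | 1 ≤ n ∧ n ≤ x ∧ ∀ i, (n + y i).Prime}.ncard : ℝ) := by
  classical
  unfold Gdf at h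
  have hfin : {n : ℕ | 1 ≤ n ∧ n ≤ x ∧ ∀ i, (n + y i).Prime}.Finite :=
    (Set.finite_Iic x).subset fun n hn => hn.2.1
  have hxR : (100 : ℝ) ≤ x := by exact_mod_cast hx
  have hlx : 0 < Real.log x := Real.log_pos (by linarith)
  have hNx : (x : ℝ) ≤ N := by
    rw [hN]
    exact_mod_cast Nat.le_add_right _ _
  have hN2 : (N : ℝ) ≤ 2 * x := by
    have : N ≤ 2 * x := by omega
    exact_mod_cast this
  have hlN : Real.log N ≤ 2 * Real.log x := by
    have h1 : Real.log N ≤ Real.log (2 * x) := Real.log_le_log (by linarith) hN2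
    rw [Real.log_mul (by norm_num) (by linarith)] at h1
    have h2 : Real.log 2 ≤ Real.log x := Real.log_le_log (by norm_num) (by linarith)
    linarith
  have hlN0 : 0 < Real.log N := Real.log_pos (by linarith)
  have h1 : κ / 2 ^ (k + 1) * x / Real.log x ^ (k + 1) ≤ κ * (N / Real.log N ^ (k + 1)) := by
    have e : κ / 2 ^ (k + 1) * x / Real.log x ^ (k + 1) = κ * (x / (2 * Real.log x) ^ (k + 1)) := by
      rw [mul_pow]
      field_simp
    rw [e]
    apply mul_le_mul_of_nonneg_left _ hκ.le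
    apply div_le_div₀ (by linarith) hNx (by positivity)
    exact pow_le_pow_left₀ hlN0.le hlN _
  refine h1.trans (h.trans ?_)
  rw [Nat.cast_le, ← Set.ncard_coe_finset]
  apply Set.ncard_le_ncard _ hfin
  intro n hn
  rw [mem_coe, mem_filter] at hn
  unfold IN at hn
  rw [mem_Icc] at hn
  refine ⟨by omega, by omega, fun i => ?_⟩
  have h2 := hn.2 i
  have h3 : (ev ((1 : ℤ), (y i : ℤ)) n).toNat = n + y i := by
    unfold ev
    show ((1 : ℤ) * (n : ℤ) + (y i : ℤ)).toNat = n + y i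
    rw [one_mul]
    omega
  rw [h3] at h2
  exact h2

open Classical in
theorem nat_core (k : ℕ) (ε : ℝ) (hε : 0 < ε) : ∃ M : ℕ, 1 ≤ M ∧ ∀ η lam : ℝ, 0 < η → 0 < lam →
    ∃ κ : ℝ, 0 < κ ∧ ∀ᶠ x : ℕ in atTop, ∀ V ⊆ range (x + 1), V.Nonempty →
      (∀ v ∈ V, ∀ w ∈ V, v ≡ w [MOD M]) → η * near V (lam * Real.log x) ≤ V.card →
      ∃ A ⊆ V, (5 / 18 - ε) * (V.card : ℝ) ≤ A.card ∧
        (exceptions k κ x A : ℝ) ≤ ε * (A.card : ℝ) ^ (k + 1) := by
  set ε₀ : ℝ := min ε (1 / 36) with hε₀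
  have hε₀0 : 0 < ε₀ := by positivity
  have hε₀ε : ε₀ ≤ ε := min_le_left _ _
  have hε₀1 : ε₀ ≤ 1 / 36 := min_le_right _ _
  set ε₁ : ℝ := ε₀ / (2 * 4 ^ (k + 1)) with hε₁
  have h4k : (1 : ℝ) ≤ 4 ^ (k + 1) := one_le_pow₀ (by norm_num)
  have hε₁0 : 0 < ε₁ := by positivity
  have hε₁1 : ε₁ ≤ ε₀ := by
    rw [hε₁, div_le_iff₀ (by positivity)]
    nlinarith
  have hε₁2 : ε₁ * (4 : ℝ) ^ (k + 1) = ε₀ / 2 := by
    rw [hε₁]
    field_simp
  obtain ⟨M, hM, hcore⟩ := core (Pool.Agent.N591.RQ.main Pool.Agent.N595.RQ.main) k (sHITM2 k) ε₁ hε₁0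
  refine ⟨M, hM, fun η lam hη hlam => ?_⟩
  have hM0 : (0 : ℝ) < M := by exact_mod_cast hM
  have hM1 : (1 : ℝ) ≤ M := by exact_mod_cast hM
  obtain ⟨κ, hκ, hx⟩ := hcore η (lam / (4 * M)) hη (by positivity)
  refine ⟨κ / 2 ^ (k + 1), by positivity, ?_⟩
  have htN : Tendsto (fun x : ℕ => x + x / 2) atTop atTop :=
    tendsto_atTop_mono (fun x => Nat.le_add_right x (x / 2)) tendsto_id
  have hlog : Tendsto (fun x : ℕ => Real.log (x : ℝ)) atTop atTop :=
    Real.tendsto_log_atTop.comp tendsto_natCast_atTop_atTop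
  have hlo : ∀ᶠ x : ℕ in atTop, lam * Real.log x ≤ (x : ℝ) / 100 := by
    have h1 := (Real.isLittleO_log_id_atTop.def (show (0 : ℝ) < 1 / (100 * lam) by positivity))
    have h2 := tendsto_natCast_atTop_atTop.eventually h1
    filter_upwards [h2, eventually_ge_atTop 1] with x hx1 hx2
    have hxR : (1 : ℝ) ≤ x := by exact_mod_cast hx2
    simp only [id_eq, Real.norm_eq_abs, abs_of_nonneg (Real.log_nonneg hxR),
      abs_of_nonneg (show (0 : ℝ) ≤ x by linarith)] at hx1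
    calc lam * Real.log x ≤ lam * (1 / (100 * lam) * x) := mul_le_mul_of_nonneg_left hx1 hlam.le
      _ = x / 100 := by field_simp
  filter_upwards [htN.eventually hx, hlo, eventually_ge_atTop 100,
    hlog.eventually_ge_atTop (4 * M / lam),
    hlog.eventually_ge_atTop (4 * M * (8 * ((k : ℝ) + 1) ^ 2 / (ε₀ * η)) / lam)]
    with x hx hlo hx100 hlx1 hlx2 V hV hVne hVM hVη
  have hxR : (100 : ℝ) ≤ x := by exact_mod_cast hx100
  have hlx0 : 0 < Real.log x := Real.log_pos (by linarith)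
  set N : ℕ := x + x / 2 with hN
  set L : ℝ := lam * Real.log x with hL
  have hL0 : 0 < L := by positivity
  set T : ℕ := ⌊L / M⌋₊ with hT
  have hT1 : (M : ℝ) * T ≤ L := by
    have h1 : (T : ℝ) ≤ L / M := Nat.floor_le (by positivity)
    calc (M : ℝ) * T ≤ M * (L / M) := mul_le_mul_of_nonneg_left h1 hM0.le
      _ = L := by field_simp
  have hLM : 4 ≤ L / M := by
    rw [div_le_iff₀ hlam] at hlx1
    rw [le_div_iff₀ hM0]
    linarith
  have hT2 : L / (2 * M) ≤ T := by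
    have h1 : L / M < T + 1 := Nat.lt_floor_add_one _
    have h2 : L / (2 * M) = L / M / 2 := by field_simp
    rw [h2]
    linarith
  have hT0 : 0 < T := by
    have : (0 : ℝ) < T := lt_of_lt_of_le (by positivity) hT2
    exact_mod_cast this
  have hNx : (x : ℝ) ≤ N := by
    rw [hN]
    exact_mod_cast Nat.le_add_right _ _
  have hN2 : (N : ℝ) ≤ 2 * x := by
    have : N ≤ 2 * x := by omega
    exact_mod_cast this
  have hlN : Real.log N ≤ 2 * Real.log x := by
    have h1 : Real.log N ≤ Real.log (2 * x) := Real.log_le_log (by linarith) hN2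
    rw [Real.log_mul (by norm_num) (by linarith)] at h1
    have h2 : Real.log 2 ≤ Real.log x := Real.log_le_log (by norm_num) (by linarith)
    linarith
  have hTN : lam / (4 * M) * Real.log N ≤ T := by
    refine le_trans ?_ hT2
    calc lam / (4 * M) * Real.log N ≤ lam / (4 * M) * (2 * Real.log x) :=
          mul_le_mul_of_nonneg_left hlN (by positivity)
      _ = L / (2 * M) := by rw [hL]; field_simp; ring
  have hMT : (M : ℝ) * T ≤ x / 100 := hT1.trans hlo
  have hMTn : 100 * (M * T) ≤ x := by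
    have : (100 : ℝ) * (M * T) ≤ x := by linarith
    exact_mod_cast this
  have hMT2 : 2 * (M * T) ≤ N := by omega
  obtain ⟨v₀, hv₀⟩ := hVne
  set U : Finset (ℤ × ℤ) := V.image (fun v => (phi M T v).1) with hU
  set V' : Finset ((ℤ × ℤ) × ℕ) := V.image (phi M T) with hV'
  have hV'c : V'.card = V.card := card_image_of_injective _ (phi_inj M T)
  have hV'U : V' ⊆ U ×ˢ range T := by
    intro w hw
    obtain ⟨v, hv, rfl⟩ := mem_image.1 hw
    refine mem_product.2 ⟨mem_image.2 ⟨v, hv, rfl⟩, mem_range.2 ?_⟩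
    exact Nat.mod_lt _ hT0
  have hvx : ∀ v ∈ V, v ≤ x := fun v hv => by
    have := mem_range.1 (hV hv)
    omega
  have hbase : ∀ v : ℕ, v % M + M * (v / M / T * T) ≤ v := fun v => by
    have := phi_nat M T v
    omega
  have hUA : ∀ f ∈ U, ∀ t ≤ T, Afm N (sh f (M * t)) := by
    intro f hf t ht
    obtain ⟨v, hv, rfl⟩ := mem_image.1 hf
    have h1 := hbase v
    have h2 := hvx v hv
    have h3 : M * t ≤ M * T := Nat.mul_le_mul_left _ ht
    refine ⟨Or.inl rfl, ?_, ?_⟩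
    · show 10 * |((v % M + M * (v / M / T * T) : ℕ) : ℤ) + ((M * t : ℕ) : ℤ)| ≤ 9 * N
      rw [abs_of_nonneg (by positivity)]
      have h4 : 10 * (v % M + M * (v / M / T * T) + M * t) ≤ 9 * N := by
        generalize v % M + M * (v / M / T * T) = a at h1 ⊢
        omega
      exact_mod_cast h4
    · intro s hs1 _
      show (N : ℝ) / 20 ≤ ((1 : ℤ) : ℝ) * s +
        (((((v % M + M * (v / M / T * T) : ℕ) : ℤ) + ((M * t : ℕ) : ℤ)) : ℤ) : ℝ)
      have h4 : (0 : ℝ) ≤ (((((v % M + M * (v / M / T * T) : ℕ) : ℤ) + ((M * t : ℕ) : ℤ)) : ℤ) : ℝ) := by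
        positivity
      rw [Int.cast_one, one_mul]
      have h5 : (0 : ℝ) ≤ N := Nat.cast_nonneg _
      linarith
  have hUp : ∀ p : ℕ, p.Prime → p ∣ M → ∃ r : ℤ, ∀ f ∈ U, ¬ (p : ℤ) ∣ f.1 * r + f.2 := by
    intro p hp hpM
    refine ⟨1 - v₀, fun f hf hdvd => ?_⟩
    obtain ⟨v, hv, rfl⟩ := mem_image.1 hf
    have h1 : v % M = v₀ % M := hVM v hv v₀ hv₀
    have h2 := Nat.div_add_mod v₀ M
    have h3 : ((phi M T v).1.1 * (1 - v₀) + (phi M T v).1.2 : ℤ) =
        1 + M * ((v / M / T * T : ℕ) - (v₀ / M : ℕ) : ℤ) := by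
      show ((1 : ℤ) * (1 - v₀) + ((v % M + M * (v / M / T * T) : ℕ) : ℤ) : ℤ) = _
      rw [h1]
      have h4 : (v₀ : ℤ) = M * (v₀ / M : ℕ) + (v₀ % M : ℕ) := by exact_mod_cast h2.symm
      push_cast at h4 ⊢
      linarith
    rw [h3] at hdvd
    have h4 : (p : ℤ) ∣ M * ((v / M / T * T : ℕ) - (v₀ / M : ℕ) : ℤ) :=
      Dvd.dvd.mul_right (Int.natCast_dvd_natCast.2 hpM) _
    have h5 : (p : ℤ) ∣ 1 := (Int.dvd_add_left h4).1 hdvd
    have h6 := Int.natCast_dvd_natCast.1 (by exact_mod_cast h5 : ((p : ℕ) : ℤ) ∣ ((1 : ℕ) : ℤ))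
    exact hp.one_lt.ne' (Nat.dvd_one.1 h6)
  have hnear : U.card * T ≤ near V L := by
    have h1 : U.card * T = (U ×ˢ range T).card := by rw [card_product, card_range]
    rw [h1]
    unfold near
    rw [Set.ncard_eq_toFinset_card _ (near_finite V L)]
    apply card_le_card_of_injOn (fun w : (ℤ × ℤ) × ℕ => (w.1.2 + (M * w.2 : ℕ)).toNat)
    · rintro ⟨f, t⟩ hw
      rw [mem_coe, mem_product] at hw
      obtain ⟨hf, ht⟩ := hw
      obtain ⟨v, hv, hvf⟩ := mem_image.1 hf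
      dsimp only at hvf ht
      rw [mem_range] at ht
      subst hvf
      rw [mem_coe, Set.Finite.mem_toFinset]
      refine ⟨v, hv, ?_⟩
      have h2 : ((phi M T v).1.2 + ((M * t : ℕ) : ℤ)).toNat = v % M + M * (v / M / T * T) + M * t := by
        show (((v % M + M * (v / M / T * T) : ℕ) : ℤ) + ((M * t : ℕ) : ℤ)).toNat = _
        rw [← Nat.cast_add, Int.toNat_natCast]
      show |((((phi M T v).1.2 + ((M * t : ℕ) : ℤ)).toNat : ℕ) : ℝ) - v| ≤ L
      rw [h2]
      have h3 := phi_nat M T v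
      have h4 : ((v % M + M * (v / M / T * T) + M * t : ℕ) : ℝ) - (v : ℝ) =
          M * ((t : ℝ) - (v / M % T : ℕ)) := by
        have h5 : (v : ℝ) = ((v % M + M * (v / M / T * T) + M * (v / M % T) : ℕ) : ℝ) := by
          rw [h3]
        rw [h5]
        push_cast
        ring
      rw [h4, abs_mul, abs_of_pos hM0]
      refine le_trans (mul_le_mul_of_nonneg_left ?_ hM0.le) hT1
      have h6 : ((v / M % T : ℕ) : ℝ) < T := by exact_mod_cast Nat.mod_lt _ hT0
      have h7 : (t : ℝ) < T := by exact_mod_cast ht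
      have h8 : (0 : ℝ) ≤ ((v / M % T : ℕ) : ℝ) := Nat.cast_nonneg _
      have h9 : (0 : ℝ) ≤ (t : ℝ) := Nat.cast_nonneg _
      rw [abs_le]
      constructor <;> linarith
    · rintro ⟨f, t⟩ hw ⟨f', t'⟩ hw' hww
      rw [mem_coe, mem_product] at hw hw'
      obtain ⟨hf, ht⟩ := hw
      obtain ⟨hf', ht'⟩ := hw'
      obtain ⟨v, hv, hvf⟩ := mem_image.1 hf
      obtain ⟨v', hv', hvf'⟩ := mem_image.1 hf'
      dsimp only at hvf hvf' ht ht' hww
      rw [mem_range] at ht ht'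
      subst hvf hvf'
      have h1 : v % M = v' % M := hVM v hv v' hv'
      have h2 : v % M + M * (v / M / T * T) + M * t = v' % M + M * (v' / M / T * T) + M * t' := by
        have h3 : (((v % M + M * (v / M / T * T) : ℕ) : ℤ) + ((M * t : ℕ) : ℤ)).toNat =
          (((v' % M + M * (v' / M / T * T) : ℕ) : ℤ) + ((M * t' : ℕ) : ℤ)).toNat := hww
        rw [← Nat.cast_add, ← Nat.cast_add, Int.toNat_natCast, Int.toNat_natCast] at h3
        exact h3
      have h3 : M * (v / M / T * T + t) = M * (v' / M / T * T + t') := by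
        rw [h1] at h2
        rw [Nat.mul_add, Nat.mul_add]
        omega
      have h4 := Nat.eq_of_mul_eq_mul_left hM h3
      obtain ⟨h5, h6⟩ := div_uniq ht ht' h4
      refine Prod.ext (Prod.ext rfl ?_) h6
      show ((v % M + M * (v / M / T * T) : ℕ) : ℤ) = ((v' % M + M * (v' / M / T * T) : ℕ) : ℤ)
      rw [h1, h5]
  have hV'η : η * (U.card * T) ≤ V'.card := by
    rw [hV'c]
    refine le_trans ?_ hVη
    apply mul_le_mul_of_nonneg_left _ hη.le
    exact_mod_cast hnear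
  obtain ⟨A', hA1, hA2, hA3⟩ := hx T hTN hMT2 U hUA hUp V' hV'U ⟨_, mem_image.2 ⟨v₀, hv₀, rfl⟩⟩ hV'η
  set A : Finset ℕ := V.filter (fun v => phi M T v ∈ A') with hA
  have hAim : A.image (phi M T) = A' := by
    ext w
    rw [mem_image]
    constructor
    · rintro ⟨v, hv, rfl⟩
      exact (mem_filter.1 hv).2
    · intro hw
      obtain ⟨v, hv, hvw⟩ := mem_image.1 (hA1 hw)
      exact ⟨v, mem_filter.2 ⟨hv, by rw [hvw]; exact hw⟩, hvw⟩
  have hAc : A.card = A'.card := by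
    rw [← hAim, card_image_of_injective _ (phi_inj M T)]
  refine ⟨A, filter_subset _ _, ?_, ?_⟩
  · rw [hAc, ← hV'c]
    refine le_trans ?_ hA2
    apply mul_le_mul_of_nonneg_right _ (Nat.cast_nonneg _)
    linarith
  -- the exceptions
  have hV4 : (V.card : ℝ) ≤ 4 * A.card := by
    rw [hAc, ← hV'c]
    have h1 : (5 / 18 - ε₁) * (V'.card : ℝ) ≥ 1 / 4 * V'.card := by
      apply mul_le_mul_of_nonneg_right _ (Nat.cast_nonneg _)
      linarith
    linarith
  have hU1 : (1 : ℝ) ≤ U.card := by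
    have : 1 ≤ U.card := Finset.card_pos.2 ⟨_, mem_image.2 ⟨v₀, hv₀, rfl⟩⟩
    exact_mod_cast this
  have hAbig : 2 * ((k : ℝ) + 1) ^ 2 / ε₀ ≤ A.card := by
    have h1 : 8 * ((k : ℝ) + 1) ^ 2 / (ε₀ * η) ≤ T := by
      refine le_trans ?_ hT2
      rw [div_le_iff₀ hlam] at hlx2
      rw [le_div_iff₀ (by positivity)]
      nlinarith [hlx2, show (0 : ℝ) ≤ 8 * ((k : ℝ) + 1) ^ 2 / (ε₀ * η) by positivity]
    have h2 : η * T ≤ V.card := by
      rw [hV'c] at hV'η
      refine le_trans ?_ hV'η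
      apply mul_le_mul_of_nonneg_left _ hη.le
      have : (0 : ℝ) ≤ T := Nat.cast_nonneg _
      nlinarith
    have h3 : η * (8 * ((k : ℝ) + 1) ^ 2 / (ε₀ * η)) = 4 * (2 * ((k : ℝ) + 1) ^ 2 / ε₀) := by
      field_simp
      ring
    have h4 := mul_le_mul_of_nonneg_left h1 hη.le
    rw [h3] at h4
    linarith
  set F1 : Finset (Fin (k + 1) → ℕ) :=
    (Fintype.piFinset (fun _ : Fin (k + 1) => A)).filter (fun φ => ¬ Function.Injective φ) with hF1
  set F2 : Finset (Fin (k + 1) → ℕ) :=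
    (Fintype.piFinset (fun _ : Fin (k + 1) => A)).filter (fun y => Function.Injective y ∧
      ¬ Gdf κ N (fun i => ((1 : ℤ), (y i : ℤ)))) with hF2
  have hEx : exceptions k (κ / 2 ^ (k + 1)) x A ≤ F1.card + F2.card := by
    unfold exceptions
    refine le_trans ?_ (card_union_le F1 F2)
    rw [← Set.ncard_coe_finset]
    apply Set.ncard_le_ncard _ (F1 ∪ F2).finite_toSet
    rintro y ⟨hy1, hy2⟩
    rw [mem_coe, mem_union, hF1, hF2, mem_filter, mem_filter, Fintype.mem_piFinset]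
    by_cases hy : Function.Injective y
    · right
      exact ⟨hy1, hy, fun hG => hy2 ⟨hy, gdf_conv hκ hN hx100 y hG⟩⟩
    · left
      exact ⟨hy1, hy⟩
  have hF2c : (F2.card : ℝ) ≤ ε₀ / 2 * (A.card : ℝ) ^ (k + 1) := by
    have h1 : F2.card ≤ ((Fintype.piFinset (fun _ : Fin (k + 1) => A')).filter (fun y =>
          Function.Injective y ∧ ¬ Gdf κ N (fun i => sh (y i).1 (M * (y i).2)))).card := by
      apply card_le_card_of_injOn (fun y i => phi M T (y i))
      · intro y hy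
        rw [mem_coe, hF2, mem_filter, Fintype.mem_piFinset] at hy
        rw [mem_coe, mem_filter, Fintype.mem_piFinset]
        refine ⟨fun i => (mem_filter.1 (hy.1 i)).2, (phi_inj M T).comp hy.2.1, ?_⟩
        have e : (fun i => sh (phi M T (y i)).1 (M * (phi M T (y i)).2)) =
            (fun i => ((1 : ℤ), (y i : ℤ))) := by
          funext i
          exact sh_phi M T (y i)
        rw [e]
        exact hy.2.2
      · intro y _ z _ hyz
        funext i
        exact phi_inj M T (congrFun hyz i)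
    have h2 : (F2.card : ℝ) ≤ ε₁ * (V.card : ℝ) ^ (k + 1) := by
      rw [← hV'c]
      exact le_trans (by exact_mod_cast h1) hA3
    have h3 : (V.card : ℝ) ^ (k + 1) ≤ 4 ^ (k + 1) * (A.card : ℝ) ^ (k + 1) := by
      rw [← mul_pow]
      exact pow_le_pow_left₀ (Nat.cast_nonneg _) hV4 _
    calc (F2.card : ℝ) ≤ ε₁ * (4 ^ (k + 1) * (A.card : ℝ) ^ (k + 1)) :=
          h2.trans (mul_le_mul_of_nonneg_left h3 hε₁0.le)
      _ = ε₀ / 2 * (A.card : ℝ) ^ (k + 1) := by rw [← mul_assoc, hε₁2]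
  have hF1c : (F1.card : ℝ) ≤ ε₀ / 2 * (A.card : ℝ) ^ (k + 1) := by
    have h3 := Pool.Agent.H362R2.CM.card_not_injective_le (k + 1) A
    have hA0 : (0 : ℝ) < A.card := lt_of_lt_of_le (by positivity) hAbig
    have h5 : (F1.card : ℝ) * A.card ≤ (ε₀ / 2 * (A.card : ℝ) ^ (k + 1)) * A.card := by
      refine le_trans (le_of_eq (by congr!)) (h3.trans ?_)
      have h6 : (((k + 1 : ℕ) : ℝ)) ^ 2 ≤ ε₀ / 2 * A.card := by
        rw [div_le_iff₀ hε₀0] at hAbig
        push_cast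
        linarith
      have h8 : (0 : ℝ) ≤ (A.card : ℝ) ^ (k + 1) := by positivity
      nlinarith
    exact le_of_mul_le_mul_right h5 hA0
  have hfin : (exceptions k (κ / 2 ^ (k + 1)) x A : ℝ) ≤ (F1.card : ℝ) + F2.card := by
    exact_mod_cast hEx
  have hAk : (0 : ℝ) ≤ (A.card : ℝ) ^ (k + 1) := by positivity
  nlinarith

open Classical in
/-- **the decomposition of log-thick sets of shifts** -/
theorem main (k : ℕ) (ε : ℝ) (hε : 0 < ε) : ∃ M R : ℕ, 1 ≤ M ∧ ∀ η lam : ℝ, 0 < η → 0 < lam →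
    ∃ κ : ℝ, 0 < κ ∧ ∀ᶠ x : ℕ in atTop, ∀ V ⊆ range (x + 1),
      (∀ v ∈ V, ∀ w ∈ V, v ≡ w [MOD M]) → η * near V (lam * Real.log x) ≤ V.card →
      ∃ r ≤ R, ∃ A : ℕ → Finset ℕ, (∀ j < r, A j ⊆ V \ (range j).biUnion A ∧
        (5 / 18 - ε) * ((V \ (range j).biUnion A).card : ℝ) ≤ (A j).card ∧
        (exceptions k κ x (A j) : ℝ) ≤ ε * ((A j).card : ℝ) ^ (k + 1)) ∧
        ((V \ (range r).biUnion A).card : ℝ) ≤ ε * V.card := by
  set ε₀ : ℝ := min ε (1 / 36) with hε₀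
  have hε₀0 : 0 < ε₀ := by positivity
  have hε₀ε : ε₀ ≤ ε := min_le_left _ _
  have hε₀1 : ε₀ ≤ 1 / 36 := min_le_right _ _
  obtain ⟨M, hM, hcore⟩ := nat_core k ε₀ hε₀0
  obtain ⟨R, hR⟩ := extract (α := ℕ) (5 / 18 - ε₀) ε₀ (by linarith) (by linarith) hε₀0
  refine ⟨M, R, hM, fun η lam hη hlam => ?_⟩
  obtain ⟨κ, hκ, hx⟩ := hcore (ε₀ * η) lam (by positivity) hlam
  refine ⟨κ, hκ, ?_⟩
  filter_upwards [hx] with x hx V hV hVM hVη
  rcases V.eq_empty_or_nonempty with hVe | hVne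
  · refine ⟨0, Nat.zero_le _, fun _ => ∅, fun j hj => absurd hj (Nat.not_lt_zero j), ?_⟩
    rw [hVe]
    simp
  have hVc : (0 : ℝ) < V.card := by exact_mod_cast hVne.card_pos
  obtain ⟨r, hr, A, h1, h2⟩ := hR V (fun A => (exceptions k κ x A : ℝ) ≤ ε * (A.card : ℝ) ^ (k + 1)) (by
    intro V' hV'V hV'c
    have hne : V'.Nonempty := by
      rw [← Finset.card_pos]
      have : (0 : ℝ) < V'.card := lt_of_lt_of_le (by positivity) hV'c
      exact_mod_cast this
    obtain ⟨A, hA1, hA2, hA3⟩ := hx V' (hV'V.trans hV) hne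
      (fun v hv w hw => hVM v (hV'V hv) w (hV'V hw)) (by
        refine le_trans ?_ hV'c
        rw [mul_assoc]
        apply mul_le_mul_of_nonneg_left _ hε₀0.le
        refine le_trans ?_ hVη
        apply mul_le_mul_of_nonneg_left _ hη.le
        exact_mod_cast near_mono hV'V _)
    refine ⟨A, hA1, hA2, hA3.trans ?_⟩
    exact mul_le_mul_of_nonneg_right hε₀ε (by positivity))
  refine ⟨r, hr, A, fun j hj => ?_, h2.trans (mul_le_mul_of_nonneg_right hε₀ε hVc.le)⟩
  obtain ⟨h3, h4, h5⟩ := h1 j hj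
  refine ⟨h3, le_trans ?_ h4, h5⟩
  apply mul_le_mul_of_nonneg_right _ (Nat.cast_nonneg _)
  linarith

end Pool.Agent.N646.TP
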