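import Pool.Agent.N646.TP.Core

/-! Project TP: sets of natural numbers; successive cliques. -/

set_option autoImplicit false

namespace Pool.Agent.N646.TP

open Finset Filter Topology
open Pool.Agent.N646.RO (S_WC HitM badU min_pos')
open Pool.Agent.N646.RG

/-- the number of the integers `m ≥ 0` at distance at most `L` from `V` -/
noncomputable def near (V : Finset ℕ) (L : ℝ) : ℕ :=
  {m : ℕ | ∃ v ∈ V, |(m : ℝ) - v| ≤ L}.ncard

/-- the number of the `(y₀, …, y_k) ∈ A ^ (k + 1)` for which the `y_i` are not distinct or fewer than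
`κ x / (log x) ^ (k + 1)` integers `1 ≤ n ≤ x` make all the `n + y_i` prime -/
noncomputable def exceptions (k : ℕ) (κ : ℝ) (x : ℕ) (A : Finset ℕ) : ℕ :=
  {y : Fin (k + 1) → ℕ | (∀ i, y i ∈ A) ∧ ¬ (Function.Injective y ∧
    κ * x / Real.log x ^ (k + 1) ≤ ({n : ℕ | 1 ≤ n ∧ n ≤ x ∧ ∀ i, (n + y i).Prime}.ncard : ℝ))}.ncard

theorem near_finite (V : Finset ℕ) (L : ℝ) : {m : ℕ | ∃ v ∈ V, |(m : ℝ) - v| ≤ L}.Finite := by
  have h : {m : ℕ | ∃ v ∈ V, |(m : ℝ) - v| ≤ L} = ⋃ v ∈ V, {m : ℕ | |(m : ℝ) - v| ≤ L} := by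
    ext m
    simp
  rw [h]
  refine Set.Finite.biUnion V.finite_toSet fun v _ => ?_
  apply (Set.finite_Iic ⌊(v : ℝ) + L⌋₊).subset
  intro m hm
  rw [Set.mem_ofPred_eq, abs_le] at hm
  exact Set.mem_Iic.2 (Nat.le_floor (by linarith [hm.2]))

theorem near_mono {V V' : Finset ℕ} (h : V' ⊆ V) (L : ℝ) : near V' L ≤ near V L := by
  unfold near
  apply Set.ncard_le_ncard _ (near_finite V L)
  rintro m ⟨v, hv, hm⟩
  exact ⟨v, h hv, hm⟩

/-- successive extraction -/
theorem extract {α : Type} [DecidableEq α] (ρ ε : ℝ) (hρ : 0 < ρ) (hρ1 : ρ ≤ 1) (hε : 0 < ε) :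
    ∃ R : ℕ, ∀ (V : Finset α) (P : Finset α → Prop),
      (∀ V' ⊆ V, ε * (V.card : ℝ) ≤ V'.card → ∃ A ⊆ V', ρ * (V'.card : ℝ) ≤ A.card ∧ P A) →
      ∃ r ≤ R, ∃ A : ℕ → Finset α, (∀ j < r, A j ⊆ V \ (range j).biUnion A ∧
        ρ * ((V \ (range j).biUnion A).card : ℝ) ≤ (A j).card ∧ P (A j)) ∧
        ((V \ (range r).biUnion A).card : ℝ) ≤ ε * V.card := by
  obtain ⟨R, hR⟩ : ∃ R : ℕ, (1 - ρ) ^ R < ε := exists_pow_lt_of_lt_one hε (by linarith)
  refine ⟨R, fun V P hP => ?_⟩
  have key : ∀ n : ℕ, ∃ r ≤ n, ∃ A : ℕ → Finset α, (∀ j < r, A j ⊆ V \ (range j).biUnion A ∧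
        ρ * ((V \ (range j).biUnion A).card : ℝ) ≤ (A j).card ∧ P (A j)) ∧
        (((V \ (range r).biUnion A).card : ℝ) ≤ ε * V.card ∨
          ((V \ (range r).biUnion A).card : ℝ) ≤ (1 - ρ) ^ n * V.card) := by
    intro n
    induction n with
    | zero =>
      refine ⟨0, le_rfl, fun _ => ∅, fun j hj => absurd hj (Nat.not_lt_zero j), Or.inr ?_⟩
      rw [pow_zero, one_mul, Nat.cast_le]
      exact card_le_card sdiff_subset
    | succ n ih =>
      obtain ⟨r, hr, A, h1, h2⟩ := ih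
      by_cases h3 : ((V \ (range r).biUnion A).card : ℝ) ≤ ε * V.card
      · exact ⟨r, hr.trans (Nat.le_succ n), A, h1, Or.inl h3⟩
      have h4 : ((V \ (range r).biUnion A).card : ℝ) ≤ (1 - ρ) ^ n * V.card := by
        rcases h2 with h2 | h2
        · exact absurd h2 h3
        · exact h2
      obtain ⟨B, hB1, hB2, hB3⟩ := hP (V \ (range r).biUnion A) sdiff_subset (not_le.1 h3).le
      set A' : ℕ → Finset α := Function.update A r B with hA'
      have hlt : ∀ j < r, A' j = A j := fun j hj => Function.update_of_ne (by omega) _ _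
      have hbi : ∀ j ≤ r, (range j).biUnion A' = (range j).biUnion A := by
        intro j hj
        apply Finset.biUnion_congr rfl
        intro i hi
        exact hlt i (by
          have := mem_range.1 hi
          omega)
      have hAr : A' r = B := Function.update_self _ _ _
      refine ⟨r + 1, by omega, A', fun j hj => ?_, Or.inr ?_⟩
      · rcases Nat.lt_succ_iff_lt_or_eq.1 hj with hj | hj
        · rw [hbi j hj.le, hlt j hj]
          exact h1 j hj
        · rw [hj, hbi r le_rfl, hAr]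
          exact ⟨hB1, hB2, hB3⟩
      · have h5 : V \ (range (r + 1)).biUnion A' = (V \ (range r).biUnion A) \ B := by
          rw [Finset.range_add_one, Finset.biUnion_insert, hbi r le_rfl, hAr]
          ext a
          simp only [Finset.mem_sdiff, Finset.mem_union]
          tauto
        rw [h5, Finset.cast_card_sdiff hB1]
        have h6 : 0 ≤ 1 - ρ := by linarith
        calc ((V \ (range r).biUnion A).card : ℝ) - (B.card : ℝ)
            ≤ (1 - ρ) * ((V \ (range r).biUnion A).card : ℝ) := by linarith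
          _ ≤ (1 - ρ) * ((1 - ρ) ^ n * V.card) := mul_le_mul_of_nonneg_left h4 h6
          _ = (1 - ρ) ^ (n + 1) * V.card := by ring
  obtain ⟨r, hr, A, h1, h2⟩ := key R
  refine ⟨r, hr, A, h1, ?_⟩
  rcases h2 with h2 | h2
  · exact h2
  · exact h2.trans (mul_le_mul_of_nonneg_right hR.le (Nat.cast_nonneg _))

end Pool.Agent.N646.TP
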